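import Pool.Agent.H.MP_c57dc8_lc.C
import Pool.Agent.Lib.helper21.Clone

set_option autoImplicit false

/-! Recoding a sequence that avoids a block of zeros; a priori complexity. -/

namespace Pool.Agent.H.MP_8e1844_lc

open Pool.Agent.H.MP_d04dff_lc Pool.Agent.H.MP_fa2eca_lc Pool.Agent.H.MP_c57dc8_lc Filter
open MeasureTheory Pool.Agent.Lib.helper21 Pool.Agent.Lib.helper21.CPred Pool.Agent.Lib.helper21.KC

theorem semiT {T : Str → ℕ → (ℕ → Bool) → Prop} (loc : ∀ σ s, Fn.Loc s (T σ s))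
    (mono : ∀ σ s t Y, s ≤ t → T σ s Y → T σ t Y)
    (hc : ComputablePred fun z : (Str × ℕ) × ℕ => T z.1.1 z.1.2 (Fn.tb z.2))
    (sub : ∀ σ b s Y, T (σ ++ [b]) s Y → T σ s Y)
    (dis : ∀ σ s t Y, T (σ ++ [false]) s Y → ¬ T (σ ++ [true]) t Y) :
    Semi fun σ => Fn.mu.real (⋃ s, {Y | T σ s Y}) := by
  classical
  refine ⟨fun _ => measureReal_nonneg, measureReal_le_one, fun σ => ?_, ?_⟩
  · rw [← measureReal_union _ (MeasurableSet.iUnion fun s => (loc _ s).closed.measurableSet)]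
    · exact measureReal_mono (Set.union_subset (Set.iUnion_mono fun s => sub σ _ s)
        (Set.iUnion_mono fun s => sub σ _ s))
    · exact Set.disjoint_left.2 fun Y h1 h2 =>
        let ⟨s, h1⟩ := Set.mem_iUnion.1 h1; let ⟨t, h2⟩ := Set.mem_iUnion.1 h2; dis σ s t Y h1 h2
  · have a1 := Fn.ccount (p := fun (z : Str × ℕ) m => T z.1 z.2 (Fn.tb m)) hc
      (pow2.to_comp.comp Computable.snd)
    have a2 : Computable fun x : (Str × ℕ × ℕ) × ℕ =>
        ((Finset.range (2 ^ x.2)).filter fun m => T x.1.1 x.2 (Fn.tb m)).card :=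
      (a1.comp ((Computable.fst.comp Computable.fst).pair Computable.snd)).of_eq fun _ => rfl
    have a3 : Primrec fun x : (Str × ℕ × ℕ) × ℕ => x.1.2.1 * 2 ^ x.2 := Primrec.nat_mul.comp
      (Primrec.fst.comp (Primrec.snd.comp Primrec.fst)) (pow2.comp Primrec.snd)
    have a4 : Primrec fun x : (Str × ℕ × ℕ) × ℕ => 2 ^ x.1.2.2 :=
      pow2.comp (Primrec.snd.comp (Primrec.snd.comp Primrec.fst))
    refine (cre (p := fun (z : Str × ℕ × ℕ) s => z.2.1 * 2 ^ s <
      ((Finset.range (2 ^ s)).filter fun m => T z.1 s (Fn.tb m)).card * 2 ^ z.2.2)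
      (clt a3.to_comp (Primrec.nat_mul.to_comp.comp a2 a4.to_comp))).of_eq fun z => ?_
    dsimp only
    rw [Measure.real, ← ENNReal.ofReal_lt_iff_lt_toReal (by positivity) (measure_ne_top _ _),
      Monotone.measure_iUnion (s := fun s => {Y | T z.1 s Y}) fun s t h Y => mono _ s t Y h,
      lt_iSup_iff]
    refine exists_congr fun s => ?_
    rw [ENNReal.ofReal_lt_iff_lt_toReal (by positivity) (measure_ne_top _ _),
      Fn.mu_loc (loc z.1 s)]
    simp only [ENNReal.toReal_mul, ENNReal.toReal_natCast, ENNReal.toReal_pow, ENNReal.toReal_inv,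
      ENNReal.toReal_ofNat, inv_pow, ← div_eq_mul_inv]
    rw [div_lt_div_iff₀ (by positivity) (by positivity)]
    norm_cast

theorem pre_prim {α : Type} [Primcodable α] {m i k : α → ℕ} (hm : Primrec m) (hi : Primrec i)
    (hk : Primrec k) : Primrec fun a => pre (fun t => Fn.tb (m a) (i a + t)) (k a) :=
  Primrec.list_map (Primrec.list_range.comp hk) (Fn.tb_prim.comp (hm.comp Primrec.fst)
    (Primrec.nat_add.comp (hi.comp Primrec.fst) Primrec.snd)).to₂

theorem pre_congr {X Y : ℕ → Bool} {k : ℕ} (h : ∀ i < k, X i = Y i) : pre X k = pre Y k :=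
  List.map_congr_left fun i hi => h i (List.mem_range.1 hi)

theorem desc {U : Str →. Str} (hU : OptP U) (σ : Str) : ∃ q, σ ∈ U q ∧ q.length = K U σ := by
  obtain ⟨c, hc⟩ := hU.enum (R := fun a v => Encodable.encode v = a)
    (Sig.prim (Primrec.eq.comp (Primrec.encode.comp Primrec.snd) Primrec.fst)) (Primrec.const 0)
  obtain ⟨_, h, _⟩ := hc _ σ rfl fun ⟨F, h1, h2⟩ => by
    obtain ⟨a, ha, b, hb, e⟩ := Finset.one_lt_card.1 (show 1 < F.card from h1)
    exact e (Encodable.encode_injective ((h2 a ha).trans (h2 b hb).symm))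
  exact K_spec h

theorem apri {U : Str →. Str} (hU : OptP U) :
    ∃ ν, Semi ν ∧ ν [] = 1 ∧ ∀ σ, (1 / 2 : ℝ) ^ K U σ ≤ ν σ := by
  obtain ⟨N, hN, Nm, Ns⟩ := approxC (U := fun p _ => U p) (hU.1.1.comp Computable.fst)
  let T : Str → ℕ → (ℕ → Bool) → Prop := fun σ s Y => σ = [] ∨ ∃ k < s, ∃ τ ∈ all s,
    N s [] (pre (fun t => Y (0 + t)) k, τ) = true ∧ τ.take σ.length = σ
  have a1 : PrimrecRel fun (τ : Str) (z : ℕ × (Str × ℕ) × ℕ) =>
      N z.2.1.2 [] (pre (fun t => Fn.tb z.2.2 (0 + t)) z.1, τ) = true ∧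
        τ.take z.2.1.1.length = z.2.1.1 := by
    have b1 : Primrec fun w : Str × ℕ × (Str × ℕ) × ℕ => w.2.2.1 :=
      Primrec.fst.comp (Primrec.snd.comp Primrec.snd)
    have b2 := pre_prim (α := Str × ℕ × (Str × ℕ) × ℕ) (Primrec.snd.comp
      (Primrec.snd.comp Primrec.snd)) (Primrec.const 0) (Primrec.fst.comp Primrec.snd)
    have b3 := hN.comp (((Primrec.snd.comp b1).pair (Primrec.const [])).pair (b2.pair Primrec.fst))
    exact (Primrec.eq.comp b3 (Primrec.const true)).and (Primrec.eq.comp (Primrec.list_take.comp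
      (Primrec.list_length.comp (Primrec.fst.comp b1)) Primrec.fst) (Primrec.fst.comp b1))
  have a2 : PrimrecRel fun (k : ℕ) (z : (Str × ℕ) × ℕ) => ∃ τ ∈ all z.1.2,
      N z.1.2 [] (pre (fun t => Fn.tb z.2 (0 + t)) k, τ) = true ∧ τ.take z.1.1.length = z.1.1 :=
    a1.exists_mem_list.comp (all_prim.comp (Primrec.snd.comp (Primrec.fst.comp Primrec.snd)))
      Primrec.id
  have a3 := a2.exists_mem_list.comp (Primrec.list_range.comp
    (Primrec.snd.comp Primrec.fst)) Primrec.id
  refine ⟨_, semiT (T := T) (fun σ s Y Y' e h => h.imp_right fun ⟨k, h1, τ, h2, h3⟩ =>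
    ⟨k, h1, τ, h2, by rwa [← pre_congr (X := fun t => Y (0 + t)) fun i hi => e _ (by omega)]⟩)
    (fun σ s t Y e h => h.imp_right fun ⟨k, h1, τ, h2, h3, h4⟩ =>
      ⟨k, by omega, τ, mem_all.2 ((mem_all.1 h2).trans e), Nm _ _ _ _ e h3, h4⟩)
    (cprim (((Primrec.eq.comp (Primrec.fst.comp Primrec.fst) (Primrec.const [])).or a3).of_eq
      fun z => by simp only [T, List.mem_range, id]))
    (fun σ b s Y h => Or.inr (let ⟨k, h1, τ, h2, h3, h4⟩ := h.resolve_left (by simp)
      ⟨k, h1, τ, h2, h3, by simpa [List.take_take] using congrArg (List.take σ.length) h4⟩))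
    fun σ s t Y h h' => ?_, ?_, fun σ => ?_⟩
  · obtain ⟨k, -, τ, -, h3, h4⟩ := h.resolve_left (by simp)
    obtain ⟨k', -, τ', -, h5, h6⟩ := h'.resolve_left (by simp)
    have h7 := (Ns [] _ _).2 ⟨_, h3⟩
    have h8 := (Ns [] _ _).2 ⟨_, h5⟩
    have h9 := Part.dom_iff_mem.2 ⟨_, h7⟩
    have h10 := Part.dom_iff_mem.2 ⟨_, h8⟩
    have e : pre (fun t => Y (0 + t)) k = pre (fun t => Y (0 + t)) k' := by
      rcases le_total k k' with c | c
      · exact hU.1.2 _ _ h9 h10 (pre_take _ c ▸ List.take_prefix _ _)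
      · exact (hU.1.2 _ _ h10 h9 (pre_take _ c ▸ List.take_prefix _ _)).symm
    rw [e] at h7
    obtain rfl := Part.mem_unique h7 h8
    simp only [List.length_append, List.length_singleton] at h4 h6
    simpa using h4.symm.trans h6
  · simp [T, Set.iUnion_const]
  · obtain ⟨q, h1, h2⟩ := desc hU σ
    obtain ⟨s, hs⟩ := (Ns [] _ _).1 h1
    refine le_trans (le_of_eq ?_) (measureReal_mono (s₁ := {Z | ∀ i ∈ Finset.range q.length,
      Z i = q.getD i false}) fun Z hZ => Set.mem_iUnion.2 ⟨s + q.length + σ.length + 1, Or.inr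
        ⟨q.length, by omega, σ, mem_all.2 (by omega), Nm s _ _ _ (by omega) ?_, by simp⟩⟩)
    · rw [Measure.real, Fn.mu_cyl]
      simp [h2]
    · rwa [show pre (fun t => Z (0 + t)) q.length = q from List.ext_getElem (pre_len _ _)
        fun i _ h5 => by simpa [pre, h5] using hZ i (Finset.mem_range.2 h5)]

theorem logle (k : ℕ) {ε : ℝ} (h : 0 < ε) : ∃ C : ℕ, ∀ r : ℕ, (k * Nat.log 2 r : ℝ) ≤ ε * r + C := by
  obtain ⟨p, hp⟩ := pow_unbounded_of_one_lt (k / ε) (one_lt_two (α := ℝ))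
  refine ⟨k * p, fun r => ?_⟩
  have h1 : Nat.log 2 r ≤ r / 2 ^ p + p := log_le (by
    rw [pow_add]
    exact (Nat.div_lt_iff_lt_mul (by positivity)).1 Nat.lt_two_pow_self)
  have h2 : (Nat.log 2 r : ℝ) ≤ r / 2 ^ p + p := (Nat.cast_le.2 h1).trans (by
    rw [Nat.cast_add]
    exact add_le_add_left (Nat.cast_div_le.trans_eq (by simp)) _)
  rw [div_lt_iff₀ h] at hp
  have h3 : (k : ℝ) * (r / 2 ^ p) ≤ ε * r := by
    rw [← mul_div_assoc, div_le_iff₀ (by positivity)]
    nlinarith [Nat.cast_nonneg (α := ℝ) r]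
  push_cast
  nlinarith [Nat.cast_nonneg (α := ℝ) k]

theorem bern (a : ℕ) : ∀ t, a ^ (t + 1) + (t + 1) * a ^ t ≤ (a + 1) ^ (t + 1)
  | 0 => by simp
  | t + 1 => by
    have := Nat.mul_le_mul_right (a + 1) (bern a t)
    rw [← pow_succ] at this
    refine le_trans ?_ this
    simp only [pow_succ]
    nlinarith [Nat.zero_le (a ^ t)]

theorem code (n : ℕ) : ∃ (D : ℕ) (e d : Str → Str), Primrec e ∧ Primrec d ∧ ∀ w : Str,
    w.length = D + 2 → ¬ List.replicate (n + 1) false <:+: w →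
      (e w).length = D + 1 ∧ d (e w) = w := by
  classical
  obtain ⟨a, ha⟩ := Nat.exists_eq_add_of_le' (Nat.one_le_two_pow (n := n + 1))
  obtain ⟨D, hD⟩ := Nat.exists_eq_add_of_le' (show 2 ≤ (n + 1) * (a + 1) by
    have := Nat.one_lt_two_pow (n := n + 1) (by omega)
    nlinarith)
  let L := ((B (D + 2)).filter fun τ => sub τ (n + 1) ⊆
    (B (n + 1)).erase (List.replicate (n + 1) false)).toList
  let C := (B (D + 1)).toList
  have h1 : L.length ≤ C.length := by
    have h2 := cnt ((B (n + 1)).erase (List.replicate (n + 1) false)) (n + 1) (a + 1)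
    rw [Finset.card_erase_of_mem (mem_B.2 (by simp)), card_B, ha, Nat.add_sub_cancel, hD] at h2
    have h3 := bern a a
    have h4 : (a + 1) ^ (a + 1) = 2 ^ (D + 1) * 2 := by rw [← pow_succ, ← ha, ← pow_mul, ha, hD]
    simp only [L, C, Finset.length_toList, card_B]
    rw [h4, pow_succ] at h3
    rw [pow_succ] at h2
    nlinarith [Nat.zero_le (a ^ a)]
  have ix : ∀ L : List Str, Primrec fun w => L.idxOf w := fun L =>
    Primrec.list_findIdx (Primrec.const L) (beq_prim.comp Primrec.snd Primrec.fst).to₂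
  refine ⟨D, fun w => C.getD (L.idxOf w) [], fun v => L.getD (C.idxOf v) [],
    (Primrec.list_getD []).comp (Primrec.const C) (ix L),
    (Primrec.list_getD []).comp (Primrec.const L) (ix C), fun w h2 h3 => ?_⟩
  have h4 : L.idxOf w < L.length := List.idxOf_lt_length_iff.2 (Finset.mem_toList.2
    (Finset.mem_filter.2 ⟨mem_B.2 h2, fun σ hσ => Finset.mem_erase.2
      ⟨fun e => h3 (e ▸ (Finset.mem_filter.1 hσ).2), (Finset.mem_filter.1 hσ).1⟩⟩))
  dsimp only
  rw [List.getD_eq_getElem _ _ (h4.trans_le h1), (Finset.nodup_toList _).idxOf_getElem,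
    List.getD_eq_getElem _ _ h4, List.getElem_idxOf]
  exact ⟨mem_B.1 (Finset.mem_toList.1 (List.getElem_mem _)), rfl⟩

theorem pre_add (X : ℕ → Bool) (a b : ℕ) :
    pre X (a + b) = pre X a ++ pre (fun t => X (a + t)) b := by
  simp [pre, List.range_add, Function.comp_def]

theorem pre_flat (X : ℕ → Bool) (N : ℕ) : ∀ r, pre X (r * N) =
    (List.range r).flatMap fun t => pre (fun u => X (t * N + u)) N
  | 0 => by simp [pre]
  | r + 1 => by rw [Nat.succ_mul, pre_add, pre_flat X N r, List.range_succ]; simp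

theorem pre_win (X : ℕ → Bool) {a b m : ℕ} (h : a + b ≤ m) :
    ((pre X m).drop a).take b = pre (fun t => X (a + t)) b := by
  obtain ⟨c, rfl⟩ := Nat.exists_eq_add_of_le h
  rw [add_assoc, pre_add, List.drop_left' (pre_len _ _), pre_take _ (Nat.le_add_right _ _)]

theorem zeros {U : Str →. Str} (hU : OptP U) {δ : ℝ} (h0 : 0 < δ) {c : ℕ} {X : ℕ → Bool}
    (hX : X ∈ SC U (fun n => δ * n) c) : ∃ n, ∀ i L,
      ¬ List.replicate (n + 1) false <:+: pre (fun t => X (i + t)) L := by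
  obtain ⟨d, hd⟩ := hU.enum (R := fun a v => v = (List.range a).map fun _ => false)
    (Sig.prim (Primrec.eq.comp Primrec.snd (Primrec.list_map (Primrec.list_range.comp Primrec.fst)
      (Primrec.const false).to₂))) (Primrec.const 0)
  obtain ⟨C, hC⟩ := logle 2 (half_pos h0)
  obtain ⟨n, hn⟩ := exists_nat_gt ((C + d + c) / (δ / 2))
  refine ⟨n, fun i L h => ?_⟩
  obtain ⟨j, hj⟩ := infix_pre h
  obtain ⟨q, h1, h2⟩ := hd (n + 1) (List.replicate (n + 1) false) (by simp) fun ⟨F, h1, h2⟩ => by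
    obtain ⟨a, ha, b, hb, e⟩ := Finset.one_lt_card.1 (show 1 < F.card from h1)
    exact e ((h2 a ha).trans (h2 b hb).symm)
  have h3 := hX (i + j) (n + 1)
  simp only [List.length_replicate, ← add_assoc] at hj
  rw [← hj] at h3
  have h4 : (K U (List.replicate (n + 1) false) : ℝ) ≤ 0 + 2 * Nat.log 2 (n + 1) + d := by
    exact_mod_cast (K_le h1).trans h2
  have h5 := hC (n + 1)
  rw [div_lt_iff₀ (half_pos h0)] at hn
  push_cast at h3 h5
  nlinarith

theorem up {U : Str →. Str} (hU : OptP U) {M : Str → ℝ} (hM : Semi M) {δ : ℝ} (h0 : 0 < δ)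
    (h1 : δ < 1) {c : ℕ} {X : ℕ → Bool} (hX : X ∈ SC U (fun n => δ * n) c) :
    ∃ Y, (∃ c : ℕ, ∀ i n, M (pre (fun j => Y (i + j)) n) ≤ 2 ^ (c - δ * n)) ∧
      TuringReducible (orc Y) (orc X) := by
  obtain ⟨n, hn⟩ := zeros hU h0 hX
  obtain ⟨D, e, d, he, hd, ed⟩ := code n
  let bl : ℕ → Str := fun j => pre (fun t => X (j * (D + 2) + t)) (D + 2)
  let Y : ℕ → Bool := fun p => (e (bl (p / (D + 1)))).getD (p % (D + 1)) false
  have hY : ∀ j, d (pre (fun t => Y (j * (D + 1) + t)) (D + 1)) = bl j := fun j => by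
    obtain ⟨h2, h3⟩ := ed (bl j) (pre_len _ _) (hn _ _)
    rw [← h3]
    congr 1
    refine List.ext_getElem (by rw [pre_len, h2]) fun t h4 h5 => ?_
    rw [pre_len] at h4
    simp [pre, Y, Nat.add_comm (j * (D + 1)), Nat.add_mul_div_right, Nat.div_eq_of_lt h4,
      Nat.mod_eq_of_lt h4, h5]
  let F : ℕ → Str → Str := fun o τ => (List.range ((τ.length - o) / (D + 1))).flatMap
    fun t => d ((τ.drop (o + t * (D + 1))).take (D + 1))
  have hF : Primrec₂ F := Primrec.list_flatMap (Primrec.list_range.comp (Primrec.nat_div.comp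
    (Primrec.nat_sub.comp (Primrec.list_length.comp Primrec.snd) Primrec.fst) (Primrec.const _)))
    (hd.comp (Primrec.list_take.comp (Primrec.const _) (Primrec.list_drop.comp
      (Primrec.nat_add.comp (Primrec.fst.comp Primrec.fst) (Primrec.nat_mul.comp Primrec.snd
        (Primrec.const _))) (Primrec.snd.comp Primrec.fst)))).to₂
  have a1 : Primrec fun a : ℕ => a.unpair.1 := Primrec.fst.comp Primrec.unpair
  have a2 : Primrec fun a : ℕ => a.unpair.2 := Primrec.snd.comp Primrec.unpair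
  have a3 : Primrec fun w : (ℕ × Str) × Str => w.1.1 := Primrec.fst.comp Primrec.fst
  obtain ⟨b, hb⟩ := hU.enum (R := fun a x => ∃ τ : Str, (τ.length = a.unpair.1.unpair.2 ∧
    x = F a.unpair.1.unpair.1 τ) ∧ ((1 : ℕ) : ℝ) / 2 ^ a.unpair.2 < M τ) (Sig.ex
      (R := fun (z : ℕ × Str) (τ : Str) => (τ.length = z.1.unpair.1.unpair.2 ∧
        z.2 = F z.1.unpair.1.unpair.1 τ) ∧ ((1 : ℕ) : ℝ) / 2 ^ z.1.unpair.2 < M τ)
      ((Sig.prim ((Primrec.eq.comp (Primrec.list_length.comp Primrec.snd)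
        (a2.comp (a1.comp a3))).and (Primrec.eq.comp (Primrec.snd.comp Primrec.fst)
          (hF.comp (a1.comp (a1.comp a3)) Primrec.snd)))).and ((sig_re hM.2.2.2).comp
            (Primrec.snd.pair ((Primrec.const 1).pair (a2.comp a3)))))) a2
  obtain ⟨C, hC⟩ := logle 8 (show 0 < δ / (D + 1) by positivity)
  refine ⟨Y, ⟨C + c + b + 5 * D + 30, fun i m => not_lt.1 fun h => ?_⟩, Fn.red X
    (ψ := fun p v => Part.some ((e (pre (fun t => Fn.tb v (p / (D + 1) * (D + 2) + t))
      (D + 2))).getD (p % (D + 1)) false).toNat) (h := fun p => p / (D + 1) * (D + 2) + (D + 2))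
    ?_ ?_ fun p => ?_⟩
  · set τ := pre (fun j => Y (i + j)) m
    generalize hc : C + c + b + 5 * D + 30 = c' at h
    have h2 : M τ ≤ 1 := (Finset.single_le_sum (f := M) (fun X _ => hM.1 X)
      (mem_B.2 (pre_len _ m))).trans (hM.tot m)
    have h3 : (c' : ℝ) - δ * m < 0 := by
      by_contra c
      exact (h.trans_le h2).not_ge (Real.one_le_rpow one_le_two (not_lt.1 c))
    have h4 := Nat.ceil_lt_add_one (show 0 ≤ δ * m - c' by linarith)
    have h5 := Nat.le_ceil (δ * m - c')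
    generalize ⌈δ * m - c'⌉₊ = l at h4 h5
    have h6 : δ * m ≤ m := mul_le_of_le_one_left (by positivity) h1.le
    have h7 : c' < m := by exact_mod_cast (show (c' : ℝ) < m by linarith)
    have h8 : l < m := by
      have : (1 : ℝ) ≤ c' := by exact_mod_cast (by omega)
      exact_mod_cast (show (l : ℝ) < m by linarith)
    obtain ⟨o, ho, j, hj⟩ : ∃ o ≤ D + 1, ∃ j, i + o = j * (D + 1) :=
      ⟨D + 1 - i % (D + 1), by omega, i / (D + 1) + 1, by
        have := Nat.div_add_mod' i (D + 1)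
        have := Nat.mod_lt i (Nat.add_one_pos D)
        rw [Nat.succ_mul]
        omega⟩
    have h9 : F o τ = pre (fun t => X (j * (D + 2) + t)) ((m - o) / (D + 1) * (D + 2)) := by
      rw [pre_flat]
      simp only [F, τ, pre_len]
      refine List.flatMap_congr fun t ht => ?_
      have := (Nat.le_div_iff_mul_le (Nat.add_one_pos D)).1 (Nat.succ_le_of_lt (List.mem_range.1 ht))
      rw [Nat.succ_mul] at this
      rw [pre_win _ (by omega)]
      simpa only [bl, add_mul, add_assoc, ← hj] using hY (j + t)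
    obtain ⟨q, h10, h11⟩ := hb (Nat.pair (Nat.pair o m) l) (F o τ) ⟨τ, by simp [τ, pre_len],
      lt_of_le_of_lt (by
        rw [Nat.unpair_pair, Nat.cast_one, one_div, ← Real.rpow_natCast, ← Real.rpow_neg zero_le_two]
        exact Real.rpow_le_rpow_of_exponent_le one_le_two (by linarith)) h⟩ fun hm => by
      obtain ⟨G, g1, g2⟩ := hm.rel (q := fun τ => τ.length = m ∧ ((1 : ℕ) : ℝ) / 2 ^ l < M τ)
        (fun x τ => x = F o τ) (fun x ⟨τ, g⟩ => ⟨τ, by simpa using g.1.2, by simpa using g.1.1,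
          by simpa using g.2⟩) fun x y τ _ _ g1 g2 => g1.trans g2.symm
      have g3 := (Finset.card_nsmul_le_sum G M _ fun x hx => (g2 x hx).2.le).trans
        ((Finset.sum_le_sum_of_subset_of_nonneg (fun x hx => mem_B.2 (g2 x hx).1)
          fun x _ _ => hM.1 x).trans (hM.tot m))
      rw [nsmul_eq_mul, Nat.cast_one, mul_one_div, div_le_one (by positivity)] at g3
      have : G.card ≤ 2 ^ l := by exact_mod_cast g3
      simp only [Nat.unpair_pair] at g1
      omega
    have h12 := hX (j * (D + 2)) ((m - o) / (D + 1) * (D + 2))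
    rw [← h9] at h12
    have h13 : Nat.log 2 (Nat.pair (Nat.pair o m) l) ≤ 4 * Nat.log 2 m + 4 := by
      have g1 := Nat.pair_lt_max_add_one_sq o m
      have g2 := Nat.pair_lt_max_add_one_sq (Nat.pair o m) l
      rw [max_eq_right (by omega)] at g1
      rw [max_eq_left (h8.le.trans (Nat.right_le_pair _ _))] at g2
      refine log_le (g2.trans_le ((Nat.pow_le_pow_left (g1.trans_le (Nat.pow_le_pow_left
        (lt_lg m) 2)) 2).trans_eq ?_))
      rw [← pow_mul, ← pow_mul, lg]
      congr 1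
      ring
    simp only [Nat.unpair_pair] at h11
    have h14 : (K U (F o τ) : ℝ) ≤ l + 8 * Nat.log 2 m + 8 + b := by
      exact_mod_cast (K_le h10).trans (by omega)
    have h15 : m < (m - o) / (D + 1) * (D + 1) + 2 * (D + 1) := by
      have := Nat.lt_div_mul_add (a := m - o) (Nat.add_one_pos D)
      omega
    generalize (m - o) / (D + 1) = r at h12 h15
    have h16 : (m : ℝ) < r * (D + 1) + 2 * (D + 1) := by exact_mod_cast h15
    have h17 : δ / (D + 1) * m ≤ δ * (r + 2) := by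
      rw [div_mul_eq_mul_div, div_le_iff₀ (by positivity)]
      nlinarith
    have h18 := hC m
    have h19 : (c' : ℝ) = C + c + b + 5 * D + 30 := by exact_mod_cast hc.symm
    have h20 := mul_lt_mul_of_pos_left h16 h0
    have h21 : δ * D ≤ D := mul_le_of_le_one_left (by positivity) h1.le
    push_cast at h12 h18
    nlinarith [Nat.cast_nonneg (α := ℝ) D]
  · exact (Fn.toNat_prim.comp ((Primrec.list_getD false).comp (he.comp (pre_prim Primrec.snd
      (Primrec.nat_mul.comp (Primrec.nat_div.comp Primrec.fst (Primrec.const _)) (Primrec.const _))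
      (Primrec.const _))) (Primrec.nat_mod.comp Primrec.fst (Primrec.const _)))).to_comp.partrec
  · exact (Primrec.nat_add.comp (Primrec.nat_mul.comp (Primrec.nat_div.comp Primrec.id
      (Primrec.const _)) (Primrec.const _)) (Primrec.const _)).to_comp
  · rw [pre_congr (Y := fun t => X (p / (D + 1) * (D + 2) + t)) fun t ht =>
      Fn.tb_cd _ _ _ (by omega)]
    rfl

end Pool.Agent.H.MP_8e1844_lc
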